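import Pool.Agent.H43.Wco1

open Pool.Agent.H43.Wco

namespace Pool.Agent.Results.MP_07ea7a_an.Mix

theorem result {𝕂 : Type} [RCLike 𝕂] {d : ℕ} (Ω : Set (E d)) (w : E d → 𝕂) (ψ : E d → E d)
    (H : Data Ω w ψ) (hc : Chaotic Ω (T w ψ)) : Mixing Ω (T w ψ) :=
  mixing H hc

end Pool.Agent.Results.MP_07ea7a_an.Mix
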